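import Mathlib

/-!
# Project MM, package METR: a metric lemma for polynomials
-/

set_option autoImplicit false

open Polynomial MeasureTheory Filter

namespace Pool.Agent.Helper90.MM

/-- the coefficients are bounded by the values at `0, …, m` -/
theorem coeff_bound (m : ℕ) : ∃ K : ℝ, 0 < K ∧ ∀ f : ℝ[X], f.natDegree ≤ m → ∀ (k : ℕ) (V : ℝ),
    (∀ j : ℕ, j ≤ m → |f.eval (j : ℝ)| ≤ V) → |f.coeff k| ≤ K * V := by
  set s : Finset ℕ := Finset.range (m + 1) with hs
  set v : ℕ → ℝ := fun j => (j : ℝ) with hv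
  set B : ℝ := ∑ i ∈ s, ∑ k ∈ s, |(Lagrange.basis s v i).coeff k| with hB
  have hB0 : 0 ≤ B := Finset.sum_nonneg fun i _ => Finset.sum_nonneg fun k _ => abs_nonneg _
  refine ⟨B + 1, by linarith, ?_⟩
  intro f hf k V hV
  have hV0 : 0 ≤ V := (abs_nonneg _).trans (hV 0 (Nat.zero_le _))
  rcases lt_or_ge m k with hk | hk
  · rw [coeff_eq_zero_of_natDegree_lt (hf.trans_lt hk), abs_zero]
    exact mul_nonneg (by linarith) hV0
  · have hinj : Set.InjOn v s := fun a _ b _ h => by
      have : (a : ℝ) = b := h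
      exact_mod_cast this
    have hdeg : f.degree < (s.card : WithBot ℕ) := by
      rw [hs, Finset.card_range]
      exact lt_of_le_of_lt degree_le_natDegree (by exact_mod_cast Nat.lt_succ_of_le hf)
    have h1 := Lagrange.eq_interpolate hinj hdeg
    have h2 : f.coeff k = ∑ i ∈ s, f.eval (v i) * (Lagrange.basis s v i).coeff k := by
      conv_lhs => rw [h1]
      rw [Lagrange.interpolate_apply, finsetSum_coeff]
      exact Finset.sum_congr rfl fun i _ => coeff_C_mul _
    rw [h2]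
    calc |∑ i ∈ s, f.eval (v i) * (Lagrange.basis s v i).coeff k|
        ≤ ∑ i ∈ s, |f.eval (v i) * (Lagrange.basis s v i).coeff k| :=
          Finset.abs_sum_le_sum_abs _ _
      _ ≤ ∑ i ∈ s, V * ∑ k ∈ s, |(Lagrange.basis s v i).coeff k| := by
          refine Finset.sum_le_sum fun i hi => ?_
          rw [abs_mul]
          refine mul_le_mul ?_ ?_ (abs_nonneg _) hV0
          · exact hV i (Nat.lt_succ_iff.1 (Finset.mem_range.1 hi))
          · exact Finset.single_le_sum (f := fun k => |(Lagrange.basis s v i).coeff k|)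
              (fun k _ => abs_nonneg _) (Finset.mem_range.2 (Nat.lt_succ_of_le hk))
      _ = V * B := by rw [← Finset.mul_sum]
      _ ≤ (B + 1) * V := by nlinarith

/-- the values are bounded by the values at separated points -/
theorem eval_bound (m : ℕ) (f : ℝ[X]) (hf : f.natDegree ≤ m) (s : Finset ℤ) (v : ℤ → ℝ)
    (hs : s.card = m + 1) (h R δ y : ℝ) (hh : 0 < h)
    (hv : ∀ i ∈ s, ∀ j ∈ s, i ≠ j → h ≤ |v i - v j|)
    (hδ : ∀ i ∈ s, |f.eval (v i)| ≤ δ) (hR : ∀ i ∈ s, |y - v i| ≤ R) :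
    |f.eval y| ≤ ((m : ℝ) + 1) * (δ * (R / h) ^ m) := by
  have hinj : Set.InjOn v s := by
    intro a ha b hb hab
    by_contra hne
    have h1 := hv a ha b hb hne
    rw [hab, sub_self, abs_zero] at h1
    linarith
  have hdeg : f.degree < (s.card : WithBot ℕ) := by
    rw [hs]
    exact lt_of_le_of_lt degree_le_natDegree (by exact_mod_cast Nat.lt_succ_of_le hf)
  have h1 := Lagrange.eq_interpolate hinj hdeg
  have h2 : f.eval y = ∑ i ∈ s, f.eval (v i) * (Lagrange.basis s v i).eval y := by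
    conv_lhs => rw [h1]
    rw [Lagrange.interpolate_apply, eval_finsetSum]
    exact Finset.sum_congr rfl fun i _ => by rw [eval_mul, eval_C]
  rw [h2]
  have hb : ∀ i ∈ s, |(Lagrange.basis s v i).eval y| ≤ (R / h) ^ m := by
    intro i hi
    have hR0 : 0 ≤ R := (abs_nonneg _).trans (hR i hi)
    rw [Lagrange.basis, eval_prod, Finset.abs_prod]
    have hc : (s.erase i).card = m := by rw [Finset.card_erase_of_mem hi, hs]; rfl
    rw [← hc, ← Finset.prod_const]
    refine Finset.prod_le_prod (fun j _ => abs_nonneg _) fun j hj => ?_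
    have hj1 := Finset.mem_of_mem_erase hj
    have hne : i ≠ j := (Finset.ne_of_mem_erase hj).symm
    rw [Lagrange.basisDivisor, eval_mul, eval_C, eval_sub, eval_X, eval_C, abs_mul, abs_inv,
      div_eq_mul_inv, mul_comm R]
    exact mul_le_mul (inv_anti₀ hh (hv i hi j hj1 hne)) (hR j hj1) (abs_nonneg _)
      (inv_nonneg.2 hh.le)
  calc |∑ i ∈ s, f.eval (v i) * (Lagrange.basis s v i).eval y|
      ≤ ∑ i ∈ s, |f.eval (v i) * (Lagrange.basis s v i).eval y| :=
        Finset.abs_sum_le_sum_abs _ _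
    _ ≤ ∑ i ∈ s, δ * (R / h) ^ m := by
        refine Finset.sum_le_sum fun i hi => ?_
        rw [abs_mul]
        exact mul_le_mul (hδ i hi) (hb i hi) (abs_nonneg _) ((abs_nonneg _).trans (hδ i hi))
    _ = ((m : ℝ) + 1) * (δ * (R / h) ^ m) := by
        rw [Finset.sum_const, hs, nsmul_eq_mul]
        push_cast
        ring

/-- a set of `2 m + 2` integers has `m + 1` elements of the same parity -/
theorem parity (m : ℕ) (T : Finset ℤ) (hT : T.card = 2 * m + 2) :
    ∃ s ⊆ T, s.card = m + 1 ∧ ∀ i ∈ s, ∀ j ∈ s, Even (i - j) := by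
  classical
  have h1 := Finset.card_filter_add_card_filter_not (s := T) (fun i : ℤ => Even i)
  rcases le_or_gt (m + 1) (T.filter fun i : ℤ => Even i).card with h | h
  · obtain ⟨s, hs, hc⟩ := Finset.exists_subset_card_eq h
    refine ⟨s, hs.trans (Finset.filter_subset _ _), hc, fun i hi j hj => ?_⟩
    exact (Finset.mem_filter.1 (hs hi)).2.sub (Finset.mem_filter.1 (hs hj)).2
  · have h' : m + 1 ≤ (T.filter fun i : ℤ => ¬ Even i).card := by omega
    obtain ⟨s, hs, hc⟩ := Finset.exists_subset_card_eq h'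
    refine ⟨s, hs.trans (Finset.filter_subset _ _), hc, fun i hi j hj => ?_⟩
    exact (Int.not_even_iff_odd.1 (Finset.mem_filter.1 (hs hi)).2).sub_odd
      (Int.not_even_iff_odd.1 (Finset.mem_filter.1 (hs hj)).2)

/-- the measure of the sublevel sets -/
theorem sublevel (m : ℕ) (R : ℝ) (hR : 0 ≤ R) : ∃ K : ℝ, 0 < K ∧ ∀ f : ℝ[X], f.natDegree ≤ m →
    ∀ (k : ℕ) (h δ : ℝ), 0 < h → 0 ≤ δ → K * δ < |f.coeff k| * h ^ m →
    volume {x : ℝ | |x| ≤ R ∧ |f.eval x| ≤ δ} ≤ ENNReal.ofReal ((2 * (m : ℝ) + 1) * h) := by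
  classical
  obtain ⟨K1, hK1, hK⟩ := coeff_bound m
  set K : ℝ := K1 * (((m : ℝ) + 1) * (R + m) ^ m) with hKdef
  have hK0 : 0 ≤ K := by positivity
  refine ⟨K + 1, by linarith, ?_⟩
  intro f hf k h δ hh hδ hlt
  set S : Set ℝ := {x : ℝ | |x| ≤ R ∧ |f.eval x| ≤ δ} with hS
  set J : Set ℤ := (fun x : ℝ => ⌊x / h⌋) '' S with hJ
  have key : ∀ T : Finset ℤ, (T : Set ℤ) ⊆ J → T.card ≠ 2 * m + 2 := by
    intro T hTJ hT
    obtain ⟨s, hsT, hsc, hpar⟩ := parity m T hT
    have hex : ∀ i : ℤ, ∃ x : ℝ, i ∈ s → x ∈ S ∧ ⌊x / h⌋ = i := by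
      intro i
      by_cases hi : i ∈ s
      · obtain ⟨x, hx, hxi⟩ := hTJ (Finset.mem_coe.2 (hsT hi))
        exact ⟨x, fun _ => ⟨hx, hxi⟩⟩
      · exact ⟨0, fun h => absurd h hi⟩
    choose v hv using hex
    have hfl : ∀ i ∈ s, (i : ℝ) * h ≤ v i ∧ v i < ((i : ℝ) + 1) * h := by
      intro i hi
      have h1 := (hv i hi).2
      have h2 := Int.floor_eq_iff.1 h1
      exact ⟨(le_div_iff₀ hh).1 h2.1, (div_lt_iff₀ hh).1 h2.2⟩
    have hgap : ∀ i ∈ s, ∀ j ∈ s, j < i → h ≤ v i - v j := by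
      intro i hi j hj hji
      obtain ⟨c, hc⟩ := hpar i hi j hj
      have h2 : j + 2 ≤ i := by omega
      have h3 : (j : ℝ) + 2 ≤ i := by exact_mod_cast h2
      have h4 := hfl i hi
      have h5 := hfl j hj
      nlinarith [h4.1, h5.2]
    have hsep : ∀ i ∈ s, ∀ j ∈ s, i ≠ j → h ≤ |v i - v j| := by
      intro i hi j hj hne
      rcases lt_or_gt_of_ne hne with h1 | h1
      · rw [abs_sub_comm]
        exact (hgap j hj i hi h1).trans (le_abs_self _)
      · exact (hgap i hi j hj h1).trans (le_abs_self _)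
    have hval : ∀ j : ℕ, j ≤ m → |f.eval (j : ℝ)| ≤
        ((m : ℝ) + 1) * (δ * ((R + m) / h) ^ m) := by
      intro j hj
      refine eval_bound m f hf s v hsc h (R + m) δ j hh hsep (fun i hi => (hv i hi).1.2) ?_
      intro i hi
      have h1 : |v i| ≤ R := (hv i hi).1.1
      have h2 : |(j : ℝ)| ≤ m := by
        rw [abs_of_nonneg (Nat.cast_nonneg j)]
        exact_mod_cast hj
      calc |(j : ℝ) - v i| ≤ |(j : ℝ)| + |v i| := abs_sub _ _
        _ ≤ R + m := by linarith
    have h3 := hK f hf k _ hval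
    have hhm : 0 < h ^ m := pow_pos hh m
    have h4 : |f.coeff k| * h ^ m ≤ K * δ := by
      calc |f.coeff k| * h ^ m
          ≤ K1 * (((m : ℝ) + 1) * (δ * ((R + m) / h) ^ m)) * h ^ m :=
            mul_le_mul_of_nonneg_right h3 hhm.le
        _ = K * δ := by
            rw [div_pow, hKdef]
            field_simp
    nlinarith
  have hfin : J.Finite := by
    by_contra hinf
    obtain ⟨T, hT, hc⟩ := Set.Infinite.exists_subset_card_eq hinf (2 * m + 2)
    exact key T hT hc
  have hcard : hfin.toFinset.card ≤ 2 * m + 1 := by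
    by_contra hlt'
    have h1 : 2 * m + 2 ≤ hfin.toFinset.card := by omega
    obtain ⟨T, hT, hc⟩ := Finset.exists_subset_card_eq h1
    exact key T (fun i hi => hfin.mem_toFinset.1 (hT hi)) hc
  have hsub : S ⊆ ⋃ j ∈ hfin.toFinset, Set.Icc ((j : ℝ) * h) (((j : ℝ) + 1) * h) := by
    intro x hx
    refine Set.mem_biUnion (x := ⌊x / h⌋) (hfin.mem_toFinset.2 ⟨x, hx, rfl⟩) ?_
    have h2 := Int.floor_eq_iff.1 (rfl : ⌊x / h⌋ = ⌊x / h⌋)
    exact ⟨(le_div_iff₀ hh).1 h2.1, ((div_lt_iff₀ hh).1 h2.2).le⟩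
  calc volume S ≤ volume (⋃ j ∈ hfin.toFinset, Set.Icc ((j : ℝ) * h) (((j : ℝ) + 1) * h)) :=
        measure_mono hsub
    _ ≤ ∑ j ∈ hfin.toFinset, volume (Set.Icc ((j : ℝ) * h) (((j : ℝ) + 1) * h)) :=
        measure_biUnion_finset_le _ _
    _ = ∑ j ∈ hfin.toFinset, ENNReal.ofReal h := by
        refine Finset.sum_congr rfl fun j _ => ?_
        rw [Real.volume_Icc]
        congr 1
        ring
    _ = (hfin.toFinset.card : ENNReal) * ENNReal.ofReal h := by
        rw [Finset.sum_const, nsmul_eq_mul]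
    _ ≤ ((2 * m + 1 : ℕ) : ENNReal) * ENNReal.ofReal h := by
        gcongr
    _ = ENNReal.ofReal ((2 * (m : ℝ) + 1) * h) := by
        rw [ENNReal.ofReal_mul (by positivity)]
        congr 1
        rw [← ENNReal.ofReal_natCast]
        push_cast
        rfl

theorem metr (m N C : ℕ) (Q : ℕ → Set (Polynomial ℝ))
    (hQ : ∀ H, 2 ≤ H → (Q H).Finite ∧ (Q H).ncard ≤ (2 * H + 1) ^ N ∧
      ∀ f ∈ Q H, f.natDegree ≤ m ∧ ∃ k, 1 ≤ |f.coeff k| * (H : ℝ) ^ C) :
    ∃ C' : ℕ, ∀ᵐ x : ℝ, ∃ H0 : ℕ, ∀ H, H0 ≤ H → 2 ≤ H → ∀ f ∈ Q H,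
      1 ≤ |f.eval x| * (H : ℝ) ^ C' := by
  classical
  set C' : ℕ := C + (N + 2) * m + 1 with hC'
  refine ⟨C', ?_⟩
  have main : ∀ R : ℕ, ∀ᵐ x : ℝ, |x| ≤ R → ∃ H0 : ℕ, ∀ H, H0 ≤ H → 2 ≤ H → ∀ f ∈ Q H,
      1 ≤ |f.eval x| * (H : ℝ) ^ C' := by
    intro R
    obtain ⟨K, hK0, hK⟩ := sublevel m R (Nat.cast_nonneg R)
    obtain ⟨H1, hH1⟩ := exists_nat_gt K
    set B : ℕ → Set ℝ := fun H => {x : ℝ | |x| ≤ R ∧ ∃ f ∈ Q H, |f.eval x| * (H : ℝ) ^ C' < 1}
      with hB
    set s : ℕ → Set ℝ := fun H => if max 2 H1 ≤ H then B H else ∅ with hs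
    set c : ℝ := 3 ^ N * (2 * (m : ℝ) + 1) with hc
    have hc0 : 0 ≤ c := by positivity
    have hbound : ∀ H, volume (s H) ≤ ENNReal.ofReal (c * (1 / (H : ℝ) ^ 2)) := by
      intro H
      by_cases hH : max 2 H1 ≤ H
      · have hH2 : 2 ≤ H := (le_max_left _ _).trans hH
        have hHK : K < H := hH1.trans_le (by exact_mod_cast (le_max_right _ _).trans hH)
        have hHp : (0 : ℝ) < H := by
          have : 0 < H := by omega
          exact_mod_cast this
        obtain ⟨hfin, hcard, hf⟩ := hQ H hH2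
        have hsH : s H = B H := by rw [hs]; simp only; rw [if_pos hH]
        rw [hsH]
        have hsub : B H ⊆ ⋃ f ∈ hfin.toFinset,
            {x : ℝ | |x| ≤ R ∧ |f.eval x| ≤ 1 / (H : ℝ) ^ C'} := by
          rintro x ⟨hx, f, hfQ, hlt⟩
          refine Set.mem_biUnion (x := f) (hfin.mem_toFinset.2 hfQ) ⟨hx, ?_⟩
          rw [le_div_iff₀ (pow_pos hHp _)]
          exact hlt.le
        have hone : ∀ f ∈ hfin.toFinset, volume {x : ℝ | |x| ≤ R ∧
            |f.eval x| ≤ 1 / (H : ℝ) ^ C'} ≤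
            ENNReal.ofReal ((2 * (m : ℝ) + 1) * (1 / (H : ℝ) ^ (N + 2))) := by
          intro f hfQ
          obtain ⟨hd, k, hk⟩ := hf f (hfin.mem_toFinset.1 hfQ)
          refine hK f hd k _ _ (by positivity) (by positivity) ?_
          have h1 : 1 / (H : ℝ) ^ C ≤ |f.coeff k| := by
            rw [div_le_iff₀ (pow_pos hHp _)]
            exact hk
          have h2 : K * (1 / (H : ℝ) ^ C') < 1 / (H : ℝ) ^ C * (1 / (H : ℝ) ^ (N + 2)) ^ m := by
            have e1 : 1 / (H : ℝ) ^ C * (1 / (H : ℝ) ^ (N + 2)) ^ m =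
                (H : ℝ) * (1 / (H : ℝ) ^ C') := by
              have e2 : ((H : ℝ) ^ (N + 2)) ^ m = (H : ℝ) ^ ((N + 2) * m) := (pow_mul _ _ _).symm
              rw [one_div_pow, e2, hC', pow_succ (H : ℝ) (C + (N + 2) * m), pow_add (H : ℝ) C]
              field_simp
            rw [e1]
            exact mul_lt_mul_of_pos_right hHK (by positivity)
          exact h2.trans_le (mul_le_mul_of_nonneg_right h1 (by positivity))
        calc volume (B H) ≤ volume (⋃ f ∈ hfin.toFinset,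
              {x : ℝ | |x| ≤ R ∧ |f.eval x| ≤ 1 / (H : ℝ) ^ C'}) := measure_mono hsub
          _ ≤ ∑ f ∈ hfin.toFinset, volume {x : ℝ | |x| ≤ R ∧
              |f.eval x| ≤ 1 / (H : ℝ) ^ C'} := measure_biUnion_finset_le _ _
          _ ≤ ∑ f ∈ hfin.toFinset,
              ENNReal.ofReal ((2 * (m : ℝ) + 1) * (1 / (H : ℝ) ^ (N + 2))) :=
              Finset.sum_le_sum hone
          _ = (hfin.toFinset.card : ENNReal) *
              ENNReal.ofReal ((2 * (m : ℝ) + 1) * (1 / (H : ℝ) ^ (N + 2))) := by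
              rw [Finset.sum_const, nsmul_eq_mul]
          _ = ENNReal.ofReal ((hfin.toFinset.card : ℝ) *
              ((2 * (m : ℝ) + 1) * (1 / (H : ℝ) ^ (N + 2)))) := by
              rw [ENNReal.ofReal_mul (Nat.cast_nonneg _), ENNReal.ofReal_natCast]
          _ ≤ ENNReal.ofReal (c * (1 / (H : ℝ) ^ 2)) := by
              refine ENNReal.ofReal_le_ofReal ?_
              have h3 : (hfin.toFinset.card : ℝ) ≤ (3 * (H : ℝ)) ^ N := by
                have h4 : hfin.toFinset.card ≤ (3 * H) ^ N := by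
                  rw [← Set.ncard_eq_toFinset_card _ hfin]
                  exact hcard.trans (Nat.pow_le_pow_left (by omega) _)
                exact_mod_cast h4
              calc (hfin.toFinset.card : ℝ) * ((2 * (m : ℝ) + 1) * (1 / (H : ℝ) ^ (N + 2)))
                  ≤ (3 * (H : ℝ)) ^ N * ((2 * (m : ℝ) + 1) * (1 / (H : ℝ) ^ (N + 2))) :=
                    mul_le_mul_of_nonneg_right h3 (by positivity)
                _ = c * (1 / (H : ℝ) ^ 2) := by
                    rw [hc, mul_pow, pow_add]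
                    field_simp
      · have hsH : s H = ∅ := by rw [hs]; simp only; rw [if_neg hH]
        rw [hsH, measure_empty]
        exact bot_le
    have hsum : ∑' H, volume (s H) ≠ ⊤ := by
      refine ne_top_of_le_ne_top ?_ (ENNReal.tsum_le_tsum hbound)
      exact Summable.tsum_ofReal_ne_top
        ((Real.summable_one_div_nat_pow.2 (by norm_num)).mul_left c)
    filter_upwards [ae_eventually_notMem hsum] with x hx hxR
    obtain ⟨H0, hH0⟩ := eventually_atTop.1 hx
    refine ⟨max H0 (max 2 H1), fun H hH h2 f hf => ?_⟩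
    have h1 := hH0 H ((le_max_left _ _).trans hH)
    have h3 : max 2 H1 ≤ H := (le_max_right _ _).trans hH
    have hsH : s H = B H := by rw [hs]; simp only; rw [if_pos h3]
    rw [hsH] at h1
    by_contra hlt
    exact h1 ⟨hxR, f, hf, not_le.1 hlt⟩
  have hall := ae_all_iff.2 main
  filter_upwards [hall] with x hx
  obtain ⟨R, hR⟩ := exists_nat_ge |x|
  exact hx R hR

end Pool.Agent.Helper90.MM
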